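import Mathlib

/-!
# MP_3b8abe_co: semigroups with infinite representation counts and full intersection sets
-/

namespace Pool.Agent.Results.MP_3b8abe_co.Supports

open Filter

variable {S : Type} [Semigroup S]

/-- The ordered factorisations `a_1 ⋯ a_h = x`, the product being taken in `S` with a unit added. -/
def reps (h : ℕ) (x : S) : Set (Fin h → S) :=
  {a | (List.ofFn fun i => (a i : WithOne S)).prod = x}

/-- The product set `A ^ h`. -/
def pw (A : Set S) (h : ℕ) : Set S := {x | ∃ a ∈ reps h x, ∀ i, a i ∈ A}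

/-- Asymptotically strictly decreasing sequences of subsets. -/
def StrictDecr (A : ℕ → Set S) : Prop := (∀ q, A (q + 1) ⊆ A q) ∧ ∃ᶠ q in atTop, A (q + 1) ≠ A q

/-- The intersection set `H(A_q)`. -/
def interSet (A : ℕ → Set S) : Set ℕ := {h | 1 ≤ h ∧ pw (⋂ q, A q) h = ⋂ q, pw (A q) h}

/-- The minimal sets of factors of `h`-fold factorisations of `x`. -/
def minSupp (h : ℕ) (x : S) : Set (Set S) := {K | Minimal (fun K => x ∈ pw K h) K}

theorem exists_min {h : ℕ} {x : S} {A : Set S} (hx : x ∈ pw A h) :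
    ∃ K ∈ minSupp h x, K ⊆ A := by
  obtain ⟨a, ha, hA⟩ := hx
  obtain ⟨K, hK, hm⟩ := exists_minimal_le_of_wellFoundedLT
    (fun K : Finset (Fin h) => x ∈ pw (a '' K) h) Finset.univ ⟨a, ha, fun i => ⟨i, by simp, rfl⟩⟩
  classical
  refine ⟨a '' K, ⟨hm.1, fun L hL hLK => ?_⟩, by rintro _ ⟨i, -, rfl⟩; exact hA i⟩
  have h1 : a '' ↑(K.filter fun i => a i ∈ L) = L := by
    ext y
    constructor
    · rintro ⟨i, hi, rfl⟩
      exact (Finset.mem_filter.1 hi).2
    · intro hy
      obtain ⟨i, hi, rfl⟩ := hLK hy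
      exact ⟨i, Finset.mem_filter.2 ⟨hi, hy⟩, rfl⟩
  have h2 := hm.2 (y := K.filter fun i => a i ∈ L) (by simpa only [h1] using hL)
    (Finset.filter_subset _ _)
  rw [← h1]
  exact Set.image_mono h2

theorem of_finite (hf : ∀ h x, (minSupp (S := S) h x).Finite) (A : ℕ → Set S)
    (hA : ∀ q, A (q + 1) ⊆ A q) (h : ℕ) : pw (⋂ q, A q) h = ⋂ q, pw (A q) h := by
  have hanti : Antitone A := antitone_nat_of_succ_le hA
  refine Set.Subset.antisymm (Set.subset_iInter fun q x ⟨a, ha, h2⟩ =>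
    ⟨a, ha, fun i => Set.iInter_subset A q (h2 i)⟩) fun x hx => ?_
  by_contra hn
  have h1 : ∀ K ∈ minSupp h x, ∀ᶠ q in atTop, ¬ K ⊆ A q := by
    intro K hK
    by_contra hc
    obtain ⟨a, ha, h2⟩ := hK.1
    refine hn ⟨a, ha, fun i => Set.mem_iInter.2 fun q => ?_⟩
    obtain ⟨r, hr, h3⟩ := (not_eventually.1 hc).forall_exists_of_atTop q
    exact hanti hr (not_not.1 h3 (h2 i))
  obtain ⟨q, hq⟩ := (((hf h x).eventually_all).2 h1).exists
  obtain ⟨K, hK, h2⟩ := exists_min (Set.mem_iInter.1 hx q)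
  exact hq K hK h2

theorem of_infinite {h : ℕ} {x : S} (hi : (minSupp h x).Infinite) :
    ∃ A : ℕ → Set S, StrictDecr A ∧ x ∈ ⋂ q, pw (A q) h ∧ x ∉ pw (⋂ q, A q) h := by
  let M := hi.natEmbedding
  have h1 : ∀ n, ∃ a ∈ reps h x, Set.range a = (M n).1 := fun n => by
    obtain ⟨a, ha, h2⟩ := (M n).2.1
    have h3 : Set.range a ⊆ (M n).1 := Set.range_subset_iff.2 h2
    exact ⟨a, ha, h3.antisymm ((M n).2.2 ⟨a, ha, fun i => ⟨i, rfl⟩⟩ h3)⟩
  choose a ha hr using h1
  let U := hyperfilter ℕ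
  let K : Set S := {c | ∃ i, ∀ᶠ n in U, a n i = c}
  let A : ℕ → Set S := fun q => K ∪ {y | (∃ n i, a n i = y) ∧ ∀ n < q, ∀ i, a n i ≠ y}
  have hK : ∀ᶠ n in U, K ⊆ (M n).1 := by
    have : ∀ᶠ n in U, ∀ i c, (∀ᶠ m in U, a m i = c) → a n i = c := by
      refine eventually_all.2 fun i => ?_
      by_cases hc : ∃ c, ∀ᶠ m in U, a m i = c
      · obtain ⟨c, hc⟩ := hc
        refine hc.mono fun n hn d hd => ?_
        obtain ⟨m, e1, e2⟩ := (hc.and hd).exists
        rw [hn, ← e1, e2]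
      · exact Eventually.of_forall fun n c h2 => absurd ⟨c, h2⟩ hc
    exact this.mono fun n hn c ⟨i, hc⟩ => hr n ▸ ⟨i, hn i c hc⟩
  have hA : ∀ q, x ∈ pw (A q) h := fun q => by
    have : ∀ᶠ n in U, ∀ i, a n i ∈ A q := by
      refine eventually_all.2 fun i => ?_
      have h2 : ∀ᶠ n in U, ∀ m ∈ Set.Iio q, ∀ j, a n i ∈ K ∨ a m j ≠ a n i := by
        refine ((Set.finite_Iio q).eventually_all).2 fun m _ => eventually_all.2 fun j => ?_
        rcases U.em fun n => a n i = a m j with h3 | h3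
        · exact h3.mono fun n hn => Or.inl ⟨i, hn ▸ h3⟩
        · exact h3.mono fun n hn => Or.inr (Ne.symm hn)
      refine h2.mono fun n hn => ?_
      by_cases hk : a n i ∈ K
      · exact Or.inl hk
      · exact Or.inr ⟨⟨n, i, rfl⟩, fun m hm j => (hn m hm j).resolve_left hk⟩
    obtain ⟨n, hn⟩ := this.exists
    exact ⟨a n, ha n, hn⟩
  have hI : ⋂ q, A q ⊆ K := fun y hy => by
    by_contra hk
    obtain ⟨⟨n, i, e⟩, -⟩ := (Set.mem_iInter.1 hy 0).resolve_left hk
    exact ((Set.mem_iInter.1 hy (n + 1)).resolve_left hk).2 n (Nat.lt_succ_self n) i e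
  have hx : x ∉ pw K h := fun hx => by
    obtain ⟨n, hn⟩ := hK.exists
    obtain ⟨m, hm, hne⟩ := (hK.and (hyperfilter_le_cofinite (eventually_cofinite_ne n))).exists
    exact hne (M.injective (Subtype.ext
      ((((M m).2.2 hx hm).antisymm hm).trans (hn.antisymm ((M n).2.2 hx hn)))))
  have hd : ∀ q, A (q + 1) ⊆ A q := fun q =>
    Set.union_subset_union_right _ fun y hy => ⟨hy.1, fun n hn => hy.2 n (by omega)⟩
  refine ⟨A, ⟨hd, fun hc => ?_⟩, Set.mem_iInter.2 hA, fun ⟨b, hb, h2⟩ =>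
    hx ⟨b, hb, fun i => hI (h2 i)⟩⟩
  obtain ⟨q, hq⟩ := eventually_atTop.1 hc
  obtain ⟨b, hb, h2⟩ := hA q
  refine hx ⟨b, hb, fun i => hI (Set.mem_iInter.2 fun r => ?_)⟩
  rcases le_total r q with h3 | h3
  · exact antitone_nat_of_succ_le hd h3 (h2 i)
  · induction h3 with
    | refl => exact h2 i
    | step h4 ih => exact (not_not.1 (hq _ h4)).symm ▸ ih

theorem reps_succ {h : ℕ} {x : S} (y : S) (hi : (reps h x).Infinite) :
    (reps (h + 1) (y * x)).Infinite := by
  refine Set.infinite_of_injOn_mapsTo (f := fun a => Fin.cons y a)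
    (Fin.cons_right_injective (α := fun _ => S) y).injOn (fun a ha => ?_) hi
  have ha : (List.ofFn fun i => (a i : WithOne S)).prod = x := ha
  simp [reps, List.ofFn_succ, ha]

/-- `S` has properties 1 and 2 iff some element has infinitely many factorisations of some length
and every element has finitely many minimal factor sets of each length. -/
theorem result (S : Type) [Semigroup S] :
    ((∃ h₀, 1 ≤ h₀ ∧ ∀ h, h₀ ≤ h → ∃ x : S, (reps h x).Infinite) ∧
      interSet '' {A : ℕ → Set S | StrictDecr A} = {{h | 1 ≤ h}}) ↔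
    ((∃ h, ∃ x : S, (reps h x).Infinite) ∧ ∀ h, ∀ x : S, (minSupp h x).Finite) := by
  constructor
  · rintro ⟨⟨h₀, -, h1⟩, h2⟩
    refine ⟨⟨h₀, h1 h₀ le_rfl⟩, fun h x => ?_⟩
    by_contra hi
    obtain ⟨A, hA, h3, h4⟩ := of_infinite hi
    have h5 : interSet A = {h | 1 ≤ h} := (h2.subset ⟨A, hA, rfl⟩ :)
    rcases h with _ | h
    · obtain ⟨a, ha, -⟩ := Set.mem_iInter.1 h3 0
      exact h4 ⟨a, ha, fun i => i.elim0⟩
    · exact h4 ((h5.symm.subset (Nat.le_add_left 1 h)).2.symm ▸ h3)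
  · rintro ⟨⟨h, x, hx⟩, hf⟩
    refine ⟨⟨h + 1, Nat.le_add_left _ _, fun k hk => ?_⟩, Set.eq_singleton_iff_nonempty_unique_mem.2
      ⟨Set.Nonempty.image _ ?_, ?_⟩⟩
    · induction hk with
      | refl => exact ⟨_, reps_succ x hx⟩
      | step _ ih => exact ih.elim fun y hy => ⟨_, reps_succ x hy⟩
    · have : Infinite S := by
        by_contra hc
        rw [not_infinite_iff_finite] at hc
        exact hx (Set.toFinite _)
      let e := Infinite.natEmbedding S
      refine ⟨fun q => e '' Set.Ici q, fun q => Set.image_mono (Set.Ici_subset_Ici.2 q.le_succ),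
        Frequently.of_forall fun q hq => ?_⟩
      have := (e.injective.image_injective hq).symm.subset (Set.self_mem_Ici (a := q))
      simp at this
    · rintro _ ⟨A, hA, rfl⟩
      exact Set.ext fun k => and_iff_left (of_finite hf A hA.1 k)

end Pool.Agent.Results.MP_3b8abe_co.Supports
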